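import Pool.Agent.Lib_helper31.LK.Defs
import Pool.Agent.Lib_helper31.LSP.DefsO

/-! LSP3, part K: two further definitions. -/

namespace Pool.Agent.LK

open Complex MeasureTheory Set
open Pool.Agent.LSP (tau GG tp KerL)

variable {q : ℕ} [NeZero q]

/-- a primitive quadratic character -/
structure PQ (χ : DirichletCharacter ℂ q) : Prop where
  prim : χ.IsPrimitive
  sq : χ ^ 2 = 1
  ne : χ ≠ 1

/-- the residue function -/
noncomputable def HH (χ : DirichletCharacter ℂ q) (N e : ℕ) (Y : ℝ) (s : ℂ) : ℂ :=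
  (((Y / (2 * Real.pi) : ℝ) : ℂ) ^ s) * Complex.Gamma (1 + s) * AA χ N e s

end Pool.Agent.LK
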