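import Pool.Agent.Lib_helper31.LK.HB

/-! LSP3: the algebra of Hecke polynomials, the square of a product. -/

namespace Pool.Agent.LK

open Pool.Agent.LEV Pool.Agent.LVB Pool.Agent.LSP
open Finset

/-- a sum over `n ≤ M` and the factorisations of `n` -/
theorem hc_anti {A B M : ℕ} (F : ℕ × ℕ → ℝ)
    (hF : ∀ p, F p ≠ 0 → (1 ≤ p.1 ∧ p.1 ≤ A) ∧ (1 ≤ p.2 ∧ p.2 ≤ B) ∧ p.1 * p.2 ≤ M) :
    ∑ n ∈ Icc 1 M, ∑ p ∈ n.divisorsAntidiagonal, F p = ∑ a ∈ Icc 1 A, ∑ b ∈ Icc 1 B, F (a, b) := by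
  classical
  rw [← Finset.sum_product', Finset.sum_sigma']
  symm
  refine Finset.sum_bij_ne_zero (fun p _ _ => (⟨p.1 * p.2, (p.1, p.2)⟩ : Σ _ : ℕ, ℕ × ℕ)) ?_ ?_ ?_ ?_
  · intro p hp hne
    rw [Finset.mem_product, Finset.mem_Icc, Finset.mem_Icc] at hp
    rw [Finset.mem_sigma, Finset.mem_Icc, Nat.mem_divisorsAntidiagonal]
    have h1 : 1 ≤ p.1 * p.2 := Nat.mul_pos hp.1.1 hp.2.1
    exact ⟨⟨h1, (hF _ hne).2.2⟩, rfl, Nat.ne_of_gt h1⟩
  · intro p _ _ p' _ _ h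
    have := congrArg (fun z : Σ _ : ℕ, ℕ × ℕ => z.2) h
    exact this
  · intro z hz hne
    have h1 := hF z.2 hne
    rw [Finset.mem_sigma, Nat.mem_divisorsAntidiagonal] at hz
    refine ⟨z.2, ?_, hne, ?_⟩
    · rw [Finset.mem_product, Finset.mem_Icc, Finset.mem_Icc]
      exact ⟨h1.1, h1.2.1⟩
    · obtain ⟨n, p⟩ := z
      have : p.1 * p.2 = n := hz.2.1
      simp only [Sigma.mk.injEq]
      exact ⟨this, by simp⟩
  · intro p _ _
    rfl

/-- **the square of a product**: `(u b)² = u · (u b b)` -/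
theorem hc_square {A B E : ℕ} (hE : A * B ≤ E) (hA : A ≤ E) {u b : ℕ → ℝ}
    (hu : ∀ e, u e ≠ 0 → 1 ≤ e ∧ e ≤ A) (hb : ∀ e, b e ≠ 0 → 1 ≤ e ∧ e ≤ B) (n : ℕ) :
    CC E (hm E u b) n = CB E u (hm E (hm E u b) b) n := by
  rw [hb_cc, hb_cb, hb_cb]
  congr 1
  set x := hm E u b with hx
  have hxs : ∀ e, x e ≠ 0 → 1 ≤ e ∧ e ≤ A * B := hb_supp hu hb
  have hzs : ∀ e, hm E x b e ≠ 0 → 1 ≤ e ∧ e ≤ A * B * B := hb_supp hxs hb
  set M := (A * B) * (A * B) + A * (A * B * B) with hM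
  have e1 : ∀ la, MX M (hm E x x) la = MX M (hm E u (hm E x b)) la := by
    intro la
    rw [← hb_prod (A := A * B) (B := A * B) (by rw [hM]; omega) hE hxs hxs,
      ← hb_prod (A := A) (B := A * B * B) (by rw [hM]; omega) hA hu hzs,
      ← hb_prod (A := A * B) (B := B) (M := A * B * B) le_rfl hE hxs hb, hx,
      ← hb_prod (A := A) (B := B) (M := A * B) le_rfl hA hu hb]
    ring
  by_cases hn : 1 ≤ n ∧ n ≤ M
  · have h := hb_indep (M := M) (c := fun n => hm E x x n - hm E u (hm E x b) n) (fun la => by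
      have := e1 la
      unfold MX at this ⊢
      rw [← sub_eq_zero, ← Finset.sum_sub_distrib] at this
      rw [← this]
      refine Finset.sum_congr rfl fun e _ => ?_
      ring) hn.1 hn.2
    linarith
  · have h1 : hm E x x n = 0 := by
      by_contra h
      have := hb_supp hxs hxs n h
      apply hn
      rw [hM]
      omega
    have h2 : hm E u (hm E x b) n = 0 := by
      by_contra h
      have := hb_supp hu hzs n h
      apply hn
      rw [hM]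
      omega
    rw [h1, h2]

/-- **linear functionals of the coefficients of a product** -/
theorem hc_lin {E M : ℕ} (hM : E * E ≤ M) {u z : ℕ → ℝ} (hu : ∀ e, u e ≠ 0 → 1 ≤ e ∧ e ≤ E)
    (hz : ∀ e, z e ≠ 0 → 1 ≤ e ∧ e ≤ E) (F : ℕ → ℝ) :
    ∑ n ∈ Icc 1 M, CB E u z n * F n = ∑ e ∈ Icc 1 E, z e * ∑ p ∈ e.divisorsAntidiagonal,
      ∑ a ∈ Icc 1 E, u (p.1 * a) / (p.1 * a * p.2) * F (a * p.2) := by
  have pos : ∀ {w : ℕ → ℝ} (_ : ∀ e, w e ≠ 0 → 1 ≤ e ∧ e ≤ E) (j a : ℕ), w (j * a) ≠ 0 →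
      (1 ≤ j ∧ j ≤ E) ∧ (1 ≤ a ∧ a ≤ E) ∧ j * a ≤ E := by
    intro w hw j a h
    obtain ⟨h1, h2⟩ := hw _ h
    have hj : 1 ≤ j := by
      by_contra hc
      have : j = 0 := by omega
      rw [this] at h1
      simp at h1
    have ha : 1 ≤ a := by
      by_contra hc
      have : a = 0 := by omega
      rw [this] at h1
      simp at h1
    have h3 : j ≤ j * a := Nat.le_mul_of_pos_right _ ha
    have h4 : a ≤ j * a := Nat.le_mul_of_pos_left _ hj
    exact ⟨⟨hj, h3.trans h2⟩, ⟨ha, h4.trans h2⟩, h2⟩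
  -- the left side
  have e1 : ∑ n ∈ Icc 1 M, CB E u z n * F n = ∑ j ∈ Icc 1 E, ∑ a ∈ Icc 1 E, ∑ b ∈ Icc 1 E,
      (1 / (j : ℝ)) * (u (j * a) * z (j * b) / (a * b) * F (a * b)) := by
    have e2 : ∀ n ∈ Icc 1 M, CB E u z n * F n = ∑ j ∈ Icc 1 E, ∑ p ∈ n.divisorsAntidiagonal,
        (1 / (j : ℝ)) * (u (j * p.1) * z (j * p.2) / (p.1 * p.2) * F (p.1 * p.2)) := by
      intro n _
      unfold CB
      rw [Finset.sum_mul]
      refine Finset.sum_congr rfl fun j _ => ?_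
      rw [Finset.mul_sum, Finset.sum_mul]
      refine Finset.sum_congr rfl fun p hp => ?_
      have := (Nat.mem_divisorsAntidiagonal.mp hp).1
      rw [← this]
      push_cast
      ring
    rw [Finset.sum_congr rfl e2, Finset.sum_comm]
    refine Finset.sum_congr rfl fun j hj => ?_
    have hj1 := (Finset.mem_Icc.mp hj).1
    refine hb_anti hM (fun p => (1 / (j : ℝ)) * (u (j * p.1) * z (j * p.2) / (p.1 * p.2) *
      F (p.1 * p.2))) fun p hp => ?_
    have h1 : u (j * p.1) ≠ 0 := by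
      intro h0
      apply hp
      simp [h0]
    have h2 : z (j * p.2) ≠ 0 := by
      intro h0
      apply hp
      simp [h0]
    exact ⟨(pos hu _ _ h1).2.1, (pos hz _ _ h2).2.1⟩
  rw [e1]
  -- the right side
  have e3 : ∀ e ∈ Icc 1 E, z e * ∑ p ∈ e.divisorsAntidiagonal,
      ∑ a ∈ Icc 1 E, u (p.1 * a) / (p.1 * a * p.2) * F (a * p.2) =
      ∑ p ∈ e.divisorsAntidiagonal, z (p.1 * p.2) *
        ∑ a ∈ Icc 1 E, u (p.1 * a) / (p.1 * a * p.2) * F (a * p.2) := by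
    intro e _
    rw [Finset.mul_sum]
    refine Finset.sum_congr rfl fun p hp => ?_
    rw [(Nat.mem_divisorsAntidiagonal.mp hp).1]
  rw [Finset.sum_congr rfl e3, hc_anti (A := E) (B := E) (fun p => z (p.1 * p.2) *
    ∑ a ∈ Icc 1 E, u (p.1 * a) / (p.1 * a * p.2) * F (a * p.2)) (fun p hp =>
      pos hz _ _ (left_ne_zero_of_mul hp))]
  refine Finset.sum_congr rfl fun j _ => ?_
  rw [Finset.sum_comm]
  refine Finset.sum_congr rfl fun b _ => ?_
  rw [Finset.mul_sum]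
  refine Finset.sum_congr rfl fun a _ => ?_
  rw [div_eq_mul_inv, div_eq_mul_inv, div_eq_mul_inv, mul_inv, mul_inv, mul_inv]
  ring

end Pool.Agent.LK
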