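import Pool.Agent.Lib_helper41.LSP.Defs

/-!
# LSP3, part K: the off-diagonal of a smooth quadratic twist. Definitions.

`χ` is a primitive quadratic character mod `q`, `N` the level, `e` an index of the second vector.
-/

namespace Pool.Agent.LK

open Complex MeasureTheory Set
open Pool.Agent.LSP (tau GG tp KerL)

/-- the Cauchy weight -/
noncomputable def rinf (t : ℝ) : ℝ := 1 / (Real.pi * (1 + t ^ 2))

/-- the kernel of the off-diagonal terms for the Cauchy weight -/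
noncomputable def Goo (u : ℝ) : ℝ := 1 / Real.pi * Real.log |1 - 1 / u|

/-- a weight on the slopes close to the Cauchy weight -/
structure KerC (T : ℝ) (ρ : ℝ → ℝ) : Prop extends KerL T ρ where
  le : ∀ t, ρ t ≤ 2 * rinf t
  near : ∀ t, |t| ≤ T / 2 → |ρ t - rinf t| ≤ 4 / T * rinf t
  lipc : ∀ s t, |ρ s - ρ t| ≤ 8 * |s - t|

/-- Mellin transform of the kernel -/
noncomputable def M0 (G : ℝ → ℝ) (ς : ℤ) (s : ℂ) : ℂ :=
  ∫ v in Ioi (0 : ℝ), (v : ℂ) ^ (s - 1) * (G (ς * v) : ℂ)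

/-- Mellin transform of the kernel with a logarithm -/
noncomputable def M1 (G : ℝ → ℝ) (ς : ℤ) (s : ℂ) : ℂ :=
  ∫ v in Ioi (0 : ℝ), (v : ℂ) ^ (s - 1) * ((G (ς * v) * Real.log |1 / v - ς| : ℝ) : ℂ)

variable {q : ℕ} [NeZero q]

/-- the Dirichlet polynomial of the index `k` -/
noncomputable def Pk (χ : DirichletCharacter ℂ q) (k : ℕ) (s : ℂ) : ℂ :=
  ∑ h ∈ k.divisors, (ArithmeticFunction.moebius h : ℂ) * χ h * (h : ℂ) ^ (-s) * (tau (k / h) : ℂ)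

/-- `∑_g τ(kg) χ(g) g^{-s}` -/
noncomputable def Zk (χ : DirichletCharacter ℂ q) (k : ℕ) (s : ℂ) : ℂ :=
  DirichletCharacter.LFunction χ s ^ 2 * Pk χ k s

/-- Mellin transform of the main part of the off-diagonal terms, for the kernel `G` -/
noncomputable def PH (χ : DirichletCharacter ℂ q) (N e : ℕ) (G : ℝ → ℝ) (s : ℂ) : ℂ :=
  2 * Real.pi / (q * e) * ∑ p ∈ e.divisorsAntidiagonal, χ p.1 *
    ∑ k ∈ p.2.divisors, χ ((p.2 / k : ℕ)) * (((p.1 * k : ℝ) / p.2 : ℝ) : ℂ) ^ (-s) *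
      ∑ l ∈ (p.2 / k).divisors, (ArithmeticFunction.moebius l : ℂ) / l *
        ∑ ς ∈ ({1, -1} : Finset ℤ), χ ς *
          (Zk χ k s * (M0 G ς s * ((Real.log (k * N) + 2 * Real.eulerMascheroniConstant -
            2 * Real.log (q * k * l) : ℝ) : ℂ) + M1 G ς s) - deriv (Zk χ k) s * M0 G ς s)

/-- the main term of `∑_a χ(a) w(ja)/a · τ(|ab - gN|) · GG(gN/(ab))` -/
noncomputable def MT (ρ : ℝ → ℝ) (χ : DirichletCharacter ℂ q) (N : ℕ) (w : ℝ → ℝ) (j b : ℕ)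
    (g : ℤ) : ℂ :=
  χ N / q * ∑ k ∈ b.divisors.filter (fun k : ℕ => (k : ℤ) ∣ g),
    χ ((g / (k : ℤ) : ℤ)) * χ ((b / k : ℕ)) *
    ∑ l ∈ (b / k).divisors, (ArithmeticFunction.moebius l : ℂ) / l *
      ((∫ a in Ioi (0 : ℝ), w (j * a) / a * GG ρ (g * N / (a * b)) *
        (Real.log |a * b - g * N| + 2 * Real.eulerMascheroniConstant -
          2 * Real.log (q * k * l)) : ℝ) : ℂ)

/-- the main part of the off-diagonal terms of `x_a = χ(a) w(a)` and the unit vector `e` -/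
noncomputable def OM (ρ : ℝ → ℝ) (χ : DirichletCharacter ℂ q) (N : ℕ) (w : ℝ → ℝ) (e : ℕ) : ℂ :=
  2 * Real.pi / e * ∑ p ∈ e.divisorsAntidiagonal, χ p.1 *
    ∑' g : ℤ, (tau g.natAbs : ℂ) * MT ρ χ N w p.1 p.2 g

/-- the finite factor of the diagonal terms -/
noncomputable def Qe (χ : DirichletCharacter ℂ q) (e : ℕ) (s r : ℂ) : ℂ :=
  ∑ p ∈ e.divisorsAntidiagonal, χ p.1 * (p.1 : ℂ) ^ (-1 - s) * (p.2 : ℂ) ^ (-1 - r) *
    ∑ h ∈ p.2.divisors, (ArithmeticFunction.moebius h : ℂ) * χ h * (h : ℂ) ^ (-1 - s - r) *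
      (tau (p.2 / h) : ℂ)

/-- the Mellin transform of the diagonal terms, up to that of `w` -/
noncomputable def AA (χ : DirichletCharacter ℂ q) (N e : ℕ) (s : ℂ) : ℂ :=
  deriv (fun r : ℂ => (((N : ℝ) / (4 * Real.pi ^ 2) : ℝ) : ℂ) ^ r *
    DirichletCharacter.LFunction χ (1 + s + r) ^ 2 * Qe χ e s r) 0

/-- the diagonal terms of `x_a = χ(a) w(a)` and the unit vector `e` -/
noncomputable def SH (χ : DirichletCharacter ℂ q) (N : ℕ) (w : ℝ → ℝ) (e : ℕ) : ℂ :=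
  ∑ p ∈ e.divisorsAntidiagonal, ∑' a : ℕ, χ p.1 * χ a *
    ((w (p.1 * a) / (p.1 * a * p.2) * tau (a * p.2) *
      Real.log (N / (4 * Real.pi ^ 2 * (a * p.2))) : ℝ) : ℂ)

/-- the weights: `V₀(y) = e^{-2πy}`, `V_{i+1}(y) = ∫_y^∞ V_i(t) dt/t` -/
noncomputable def V : ℕ → ℝ → ℝ
  | 0 => fun y => Real.exp (-(2 * Real.pi * y))
  | i + 1 => fun y => ∫ t in Ioi y, V i t / t

/-- a weight and its Mellin transform -/
structure MW (w : ℝ → ℝ) (W : ℂ → ℂ) : Prop where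
  diff : ∀ s : ℂ, 0 < s.re → DifferentiableAt ℂ W s
  bdd : ∀ a b : ℝ, 0 < a → ∃ C : ℝ, ∀ s : ℂ, a ≤ s.re → s.re ≤ b → ‖W s‖ ≤ C * Real.exp (-|s.im|)
  inv : ∀ c : ℝ, 0 < c → ∀ y : ℝ, 0 < y → (w y : ℂ) =
    1 / (2 * Real.pi) * ∫ t : ℝ, W (c + t * I) * (y : ℂ) ^ (-(c + t * I : ℂ))

end Pool.Agent.LK
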