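import Pool.Agent.Lib_helper31.LK.HA

/-! LSP3: the algebra of Hecke polynomials, products of vectors. -/

namespace Pool.Agent.LK

open Pool.Agent.LEV Pool.Agent.LVB Pool.Agent.LSP
open Finset

/-- the coefficients of the product of two Hecke polynomials -/
noncomputable def hm (E : ℕ) (x y : ℕ → ℝ) (n : ℕ) : ℝ :=
  ∑ j ∈ Icc 1 E, (1 / (j : ℝ)) * ∑ p ∈ n.divisorsAntidiagonal, x (j * p.1) * y (j * p.2)

theorem hb_cb (E : ℕ) (x y : ℕ → ℝ) (n : ℕ) : CB E x y n = hm E x y n / n := by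
  unfold CB hm
  rw [Finset.sum_div]
  refine Finset.sum_congr rfl fun j _ => ?_
  rw [mul_div_assoc, Finset.sum_div]

theorem hb_cc (E : ℕ) (x : ℕ → ℝ) (n : ℕ) : CC E x n = CB E x x n := rfl

/-- a sum over `n ≤ M` and the factorisations of `n` -/
theorem hb_anti {A B M : ℕ} (hM : A * B ≤ M) (F : ℕ × ℕ → ℝ)
    (hF : ∀ p, F p ≠ 0 → (1 ≤ p.1 ∧ p.1 ≤ A) ∧ 1 ≤ p.2 ∧ p.2 ≤ B) :
    ∑ n ∈ Icc 1 M, ∑ p ∈ n.divisorsAntidiagonal, F p = ∑ a ∈ Icc 1 A, ∑ b ∈ Icc 1 B, F (a, b) := by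
  classical
  rw [← Finset.sum_product', Finset.sum_sigma']
  symm
  refine Finset.sum_bij_ne_zero (fun p _ _ => (⟨p.1 * p.2, (p.1, p.2)⟩ : Σ _ : ℕ, ℕ × ℕ)) ?_ ?_ ?_ ?_
  · intro p hp _
    rw [Finset.mem_product, Finset.mem_Icc, Finset.mem_Icc] at hp
    rw [Finset.mem_sigma, Finset.mem_Icc, Nat.mem_divisorsAntidiagonal]
    have h1 : 1 ≤ p.1 * p.2 := Nat.mul_pos hp.1.1 hp.2.1
    refine ⟨⟨h1, ?_⟩, rfl, Nat.ne_of_gt h1⟩
    exact (Nat.mul_le_mul hp.1.2 hp.2.2).trans hM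
  · intro p _ _ p' _ _ h
    have := congrArg (fun z : Σ _ : ℕ, ℕ × ℕ => z.2) h
    exact this
  · intro z hz hne
    have h1 := hF z.2 hne
    rw [Finset.mem_sigma, Nat.mem_divisorsAntidiagonal] at hz
    refine ⟨z.2, ?_, hne, ?_⟩
    · rw [Finset.mem_product, Finset.mem_Icc, Finset.mem_Icc]
      exact h1
    · obtain ⟨n, p⟩ := z
      have : p.1 * p.2 = n := hz.2.1
      simp only [Sigma.mk.injEq]
      exact ⟨this, by simp⟩
  · intro p _ _
    rfl

/-- a sum over the multiples of `j` -/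
theorem hb_mult {A j : ℕ} (hj : 1 ≤ j) (g : ℕ → ℝ) (hg : ∀ a, g a ≠ 0 → 1 ≤ a ∧ a ≤ A) :
    ∑ a ∈ (Icc 1 A).filter (fun a => j ∣ a), g a = ∑ a ∈ Icc 1 A, g (j * a) := by
  symm
  refine Finset.sum_bij_ne_zero (fun a _ _ => j * a) ?_ ?_ ?_ ?_
  · intro a _ hne
    rw [Finset.mem_filter, Finset.mem_Icc]
    exact ⟨hg _ hne, dvd_mul_right _ _⟩
  · intro a _ _ a' _ _ h
    exact Nat.eq_of_mul_eq_mul_left hj h
  · intro a ha hne
    rw [Finset.mem_filter, Finset.mem_Icc] at ha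
    obtain ⟨c, rfl⟩ := ha.2
    refine ⟨c, ?_, hne, rfl⟩
    rw [Finset.mem_Icc]
    constructor
    · by_contra h
      have : c = 0 := by omega
      subst this
      simp at ha
    · calc c ≤ j * c := Nat.le_mul_of_pos_left c hj
        _ ≤ A := ha.1.2
  · intro a _ _
    rfl

/-- **products of Hecke polynomials** -/
theorem hb_prod {A B M E : ℕ} (hM : A * B ≤ M) (hE : A ≤ E) {x y : ℕ → ℝ}
    (hx : ∀ e, x e ≠ 0 → 1 ≤ e ∧ e ≤ A) (hy : ∀ e, y e ≠ 0 → 1 ≤ e ∧ e ≤ B) (la : ℕ → ℝ) :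
    MX A x la * MX B y la = MX M (hm E x y) la := by
  classical
  -- both sides as sums over `j, a, b`
  have hleft : MX A x la * MX B y la = ∑ j ∈ Icc 1 E, ∑ a ∈ Icc 1 A, ∑ b ∈ Icc 1 B,
      (1 / (j : ℝ)) * (x (j * a) * y (j * b) / Real.sqrt (a * b) * Um (a * b) la) := by
    unfold MX
    rw [Finset.sum_mul_sum]
    have e1 : ∀ a ∈ Icc 1 A, ∀ b ∈ Icc 1 B,
        x a / Real.sqrt a * Um a la * (y b / Real.sqrt b * Um b la) =
        ∑ j ∈ Icc 1 E, if j ∣ a ∧ j ∣ b then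
          x a * y b / Real.sqrt (a * b) * Um (a * b / j ^ 2) la else 0 := by
      intro a ha b hb
      have ha1 := (Finset.mem_Icc.mp ha).1
      have hb1 := (Finset.mem_Icc.mp hb).1
      have hs : Real.sqrt ((a : ℝ) * b) = Real.sqrt a * Real.sqrt b :=
        Real.sqrt_mul (Nat.cast_nonneg a) _
      have e2 : x a / Real.sqrt a * Um a la * (y b / Real.sqrt b * Um b la) =
          x a * y b / Real.sqrt (a * b) * (Um a la * Um b la) := by
        rw [hs]
        have h1 : Real.sqrt (a : ℝ) ≠ 0 := by positivity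
        have h2 : Real.sqrt (b : ℝ) ≠ 0 := by positivity
        field_simp
      rw [e2, ha_hecke ha1 hb1, Finset.mul_sum, ← Finset.sum_filter]
      refine Finset.sum_congr ?_ fun j _ => rfl
      ext j
      rw [Nat.mem_divisors, Finset.mem_filter, Finset.mem_Icc, Nat.dvd_gcd_iff]
      have hg : Nat.gcd a b ≠ 0 := (Nat.gcd_pos_of_pos_left _ ha1).ne'
      constructor
      · rintro ⟨⟨h1, h2⟩, _⟩
        refine ⟨⟨Nat.pos_of_dvd_of_pos h1 ha1, ?_⟩, h1, h2⟩
        exact (Nat.le_of_dvd ha1 h1).trans ((Finset.mem_Icc.mp ha).2.trans hE)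
      · rintro ⟨_, h1, h2⟩
        exact ⟨⟨h1, h2⟩, hg⟩
    rw [Finset.sum_congr rfl fun a ha => Finset.sum_congr rfl (e1 a ha)]
    rw [Finset.sum_congr rfl fun a _ => Finset.sum_comm, Finset.sum_comm]
    refine Finset.sum_congr rfl fun j hj => ?_
    have hj1 := (Finset.mem_Icc.mp hj).1
    have hjr : (0 : ℝ) < j := by exact_mod_cast hj1
    have e3 : ∀ a ∈ Icc 1 A, (∑ b ∈ Icc 1 B, if j ∣ a ∧ j ∣ b then
          x a * y b / Real.sqrt (a * b) * Um (a * b / j ^ 2) la else 0) =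
        if j ∣ a then ∑ b ∈ Icc 1 B, x a * y (j * b) / Real.sqrt (a * (j * b : ℕ)) *
          Um (a * (j * b) / j ^ 2) la else 0 := by
      intro a _
      by_cases h : j ∣ a
      · rw [if_pos h]
        simp only [h, true_and]
        rw [← Finset.sum_filter]
        exact hb_mult hj1 (fun b => x a * y b / Real.sqrt (a * b) * Um (a * b / j ^ 2) la)
          fun b hb => hy b (by
            intro h0
            apply hb
            simp [h0])
      · rw [if_neg h]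
        refine Finset.sum_eq_zero fun b _ => if_neg fun hh => h hh.1
    rw [Finset.sum_congr rfl e3, ← Finset.sum_filter,
      hb_mult hj1 (fun a => ∑ b ∈ Icc 1 B, x a * y (j * b) / Real.sqrt (a * (j * b : ℕ)) *
          Um (a * (j * b) / j ^ 2) la) fun a ha => hx a (by
            intro h0
            apply ha
            simp [h0])]
    refine Finset.sum_congr rfl fun a _ => Finset.sum_congr rfl fun b _ => ?_
    have e4 : j * a * (j * b) / j ^ 2 = a * b := by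
      rw [show j * a * (j * b) = j ^ 2 * (a * b) by ring, Nat.mul_div_cancel_left _ (by positivity)]
    have e5 : Real.sqrt (((j * a : ℕ) : ℝ) * ((j * b : ℕ) : ℝ)) = j * Real.sqrt (a * b) := by
      rw [show ((j * a : ℕ) : ℝ) * ((j * b : ℕ) : ℝ) = (j : ℝ) ^ 2 * (a * b) by push_cast; ring,
        Real.sqrt_mul (by positivity), Real.sqrt_sq hjr.le]
    rw [e4, e5]
    by_cases hab : Real.sqrt ((a : ℝ) * b) = 0
    · rw [hab]
      simp
    · field_simp
  rw [hleft]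
  unfold MX hm
  have e6 : ∀ n ∈ Icc 1 M, (∑ j ∈ Icc 1 E, (1 / (j : ℝ)) *
      ∑ p ∈ n.divisorsAntidiagonal, x (j * p.1) * y (j * p.2)) / Real.sqrt n * Um n la =
      ∑ j ∈ Icc 1 E, ∑ p ∈ n.divisorsAntidiagonal,
        (1 / (j : ℝ)) * (x (j * p.1) * y (j * p.2) / Real.sqrt (p.1 * p.2) * Um (p.1 * p.2) la) := by
    intro n _
    rw [Finset.sum_div, Finset.sum_mul]
    refine Finset.sum_congr rfl fun j _ => ?_
    rw [Finset.mul_sum, Finset.sum_div, Finset.sum_mul]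
    refine Finset.sum_congr rfl fun p hp => ?_
    have := (Nat.mem_divisorsAntidiagonal.mp hp).1
    rw [← this]
    push_cast
    ring
  have e7 := Finset.sum_congr (rfl : Icc 1 M = Icc 1 M) e6
  rw [e7, Finset.sum_comm (s := Icc 1 M)]
  refine Finset.sum_congr rfl fun j hj => ?_
  have hj1 := (Finset.mem_Icc.mp hj).1
  symm
  refine hb_anti hM (fun p => (1 / (j : ℝ)) * (x (j * p.1) * y (j * p.2) /
    Real.sqrt (p.1 * p.2) * Um (p.1 * p.2) la)) fun p hp => ?_
  have h1 : x (j * p.1) ≠ 0 := by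
    intro h0
    apply hp
    simp [h0]
  have h2 : y (j * p.2) ≠ 0 := by
    intro h0
    apply hp
    simp [h0]
  have h3 := hx _ h1
  have h4 := hy _ h2
  have h5 : p.1 ≤ j * p.1 := Nat.le_mul_of_pos_left _ hj1
  have h6 : p.2 ≤ j * p.2 := Nat.le_mul_of_pos_left _ hj1
  have h7 : 1 ≤ p.1 := by
    by_contra h
    have : p.1 = 0 := by omega
    rw [this] at h3
    simp at h3
  have h8 : 1 ≤ p.2 := by
    by_contra h
    have : p.2 = 0 := by omega
    rw [this] at h4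
    simp at h4
  exact ⟨⟨h7, h5.trans h3.2⟩, h8, h6.trans h4.2⟩

/-- the support of a product -/
theorem hb_supp {A B E : ℕ} {x y : ℕ → ℝ} (hx : ∀ e, x e ≠ 0 → 1 ≤ e ∧ e ≤ A)
    (hy : ∀ e, y e ≠ 0 → 1 ≤ e ∧ e ≤ B) (n : ℕ) (h : hm E x y n ≠ 0) : 1 ≤ n ∧ n ≤ A * B := by
  unfold hm at h
  obtain ⟨j, hj, h1⟩ := Finset.exists_ne_zero_of_sum_ne_zero h
  have hj1 := (Finset.mem_Icc.mp hj).1
  obtain ⟨p, hp, h2⟩ := Finset.exists_ne_zero_of_sum_ne_zero (right_ne_zero_of_mul h1)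
  have h3 := hx _ (left_ne_zero_of_mul h2)
  have h4 := hy _ (right_ne_zero_of_mul h2)
  obtain ⟨h5, h6⟩ := Nat.mem_divisorsAntidiagonal.mp hp
  have h7 : p.1 ≤ j * p.1 := Nat.le_mul_of_pos_left _ hj1
  have h8 : p.2 ≤ j * p.2 := Nat.le_mul_of_pos_left _ hj1
  rw [← h5]
  refine ⟨?_, Nat.mul_le_mul (h7.trans h3.2) (h8.trans h4.2)⟩
  rw [h5]
  omega

/-- **linear independence** -/
theorem hb_indep {M : ℕ} {c : ℕ → ℝ} (h : ∀ la : ℕ → ℝ, MX M c la = 0) {n : ℕ} (h1 : 1 ≤ n)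
    (hn : n ≤ M) : c n = 0 := by
  classical
  set I : Finset ℕ := (Icc 1 M).filter Nat.Prime with hI
  have hIp : ∀ p ∈ I, p.Prime := fun p hp => (Finset.mem_filter.mp hp).2
  obtain ⟨P, hP⟩ := st_exists I hIp
  have hsub : ∀ m, 1 ≤ m → m ≤ M → m.primeFactors ⊆ I := by
    intro m h1 h2 p hp
    rw [hI, Finset.mem_filter, Finset.mem_Icc]
    have h3 := Nat.prime_of_mem_primeFactors hp
    have h4 := Nat.le_of_mem_primeFactors hp
    exact ⟨⟨h3.one_lt.le, h4.trans h2⟩, h3⟩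
  have h2 : ∫ x, MX M c x * Um n x ∂P = 0 := by
    rw [show (fun x => MX M c x * Um n x) = fun _ => 0 by
      funext x
      rw [h x, zero_mul]]
    simp
  have h3 : ∫ x, MX M c x * Um n x ∂P = c n / Real.sqrt n := by
    unfold MX
    have e1 : ∀ x : ℕ → ℝ, (∑ e ∈ Icc 1 M, c e / Real.sqrt e * Um e x) * Um n x =
        ∑ e ∈ Icc 1 M, c e / Real.sqrt e * (Um e x * Um n x) := by
      intro x
      rw [Finset.sum_mul]
      exact Finset.sum_congr rfl fun e _ => by ring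
    simp_rw [e1]
    rw [MeasureTheory.integral_finsetSum _ fun e he => by
      have := Finset.mem_Icc.mp he
      exact (STO_int hP (hsub e this.1 this.2) (hsub n h1 hn)).const_mul _]
    have e2 : ∀ e ∈ Icc 1 M, ∫ x, c e / Real.sqrt e * (Um e x * Um n x) ∂P =
        if e = n then c n / Real.sqrt n else 0 := by
      intro e he
      have := Finset.mem_Icc.mp he
      rw [MeasureTheory.integral_const_mul, STO_orth hP (by omega) (by omega)
        (hsub e this.1 this.2) (hsub n h1 hn)]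
      by_cases hen : e = n
      · subst hen
        simp
      · rw [if_neg hen, if_neg hen, mul_zero]
    rw [Finset.sum_congr rfl e2, Finset.sum_ite_eq' (Icc 1 M) n, if_pos (Finset.mem_Icc.2 ⟨h1, hn⟩)]
  rw [h2] at h3
  have hs : Real.sqrt (n : ℝ) ≠ 0 := by
    have : (0 : ℝ) < n := by exact_mod_cast h1
    positivity
  have := h3.symm
  rw [div_eq_zero_iff] at this
  exact this.resolve_right hs

end Pool.Agent.LK
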