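import Pool.Agent.Lib_helper41.LVBF.STO
import Pool.Agent.Lib_helper41.LVBF.STE
import Pool.Agent.Lib_helper41.LSP2.Defs2

/-! LSP3: the algebra of Hecke polynomials. -/

namespace Pool.Agent.LK

open Pool.Agent.LEV Pool.Agent.LVB Pool.Agent.LSP
open Finset

/-- `U_a U_b = ∑_{i ≤ min(a,b)} U_{a+b-2i}` -/
theorem ha_uu (x : ℝ) (a b : ℕ) :
    Uu x a * Uu x b = ∑ i ∈ range (min a b + 1), Uu x (a + b - 2 * i) := by
  induction a generalizing b with
  | zero =>
    have : Uu x 0 = 1 := rfl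
    rw [this]
    simp
  | succ a ih =>
    rcases b with _ | b
    · have : Uu x 0 = 1 := rfl
      rw [this]
      simp
    · rw [EQS_uu, ih, Nat.succ_min_succ, Finset.sum_range_succ' _ (min a b + 1)]
      have e0 : a + 1 + (b + 1) - 2 * 0 = a + b + 2 := by omega
      rw [e0]
      congr 1
      refine Finset.sum_congr rfl fun i hi => ?_
      have := Finset.mem_range.mp hi
      congr 1
      omega

/-- the three cases of the Hecke relation -/
theorem ha_pow {p : ℕ} (hp : p.Prime) (k : ℕ) {b : ℕ} (hb : 0 < b) (x : ℕ → ℝ) :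
    Um (p ^ k) x * Um b x = ∑ j ∈ (Nat.gcd (p ^ k) b).divisors, Um (p ^ k * b / j ^ 2) x := by
  obtain ⟨m, n, hn, rfl⟩ : ∃ m n : ℕ, ¬ p ∣ n ∧ b = p ^ m * n := by
    obtain ⟨m, n, h1, h2⟩ := Nat.exists_eq_pow_mul_and_not_dvd hb.ne' p hp.ne_one
    exact ⟨m, n, h1, h2⟩
  have hcop : ∀ j : ℕ, (p ^ j).Coprime n := fun j =>
    Nat.Coprime.pow_left j ((Nat.Prime.coprime_iff_not_dvd hp).2 hn)
  have hg : Nat.gcd (p ^ k) (p ^ m * n) = p ^ min k m := by
    rw [Nat.Coprime.gcd_mul_right_cancel_right _ (hcop k).symm]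
    rcases le_total k m with h | h
    · rw [min_eq_left h]
      exact Nat.gcd_eq_left (pow_dvd_pow p h)
    · rw [min_eq_right h]
      exact Nat.gcd_eq_right (pow_dvd_pow p h)
  rw [hg, Nat.divisors_prime_pow hp, Finset.sum_map, HPO_um_mul (hcop m), HPO_um_pow hp,
    HPO_um_pow hp, ← mul_assoc, ha_uu, Finset.sum_mul]
  refine Finset.sum_congr rfl fun i hi => ?_
  have hi' : i ≤ min k m := by
    have := Finset.mem_range.mp hi
    omega
  have h1 := le_min_iff.mp hi'
  have e1 : p ^ k * (p ^ m * n) / (p ^ i) ^ 2 = p ^ (k + m - 2 * i) * n := by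
    rw [← mul_assoc, ← pow_add, ← pow_mul]
    have e2 : p ^ (k + m) = p ^ (i * 2) * p ^ (k + m - 2 * i) := by
      rw [← pow_add]
      congr 1
      omega
    rw [e2, mul_assoc, Nat.mul_div_cancel_left _ (pow_pos hp.pos _)]
  simp only [Function.Embedding.coeFn_mk]
  rw [e1, HPO_um_mul (hcop _), HPO_um_pow hp]

/-- the divisors of a product of coprime numbers -/
theorem ha_div {m n : ℕ} (hm : 0 < m) (hn : 0 < n) (h : m.Coprime n) (f : ℕ → ℝ) :
    ∑ d ∈ (m * n).divisors, f d = ∑ i ∈ m.divisors, ∑ j ∈ n.divisors, f (i * j) := by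
  rw [← Finset.sum_product']
  symm
  refine Finset.sum_nbij' (fun p => p.1 * p.2) (fun d => (Nat.gcd d m, Nat.gcd d n)) ?_ ?_ ?_ ?_ ?_
  · intro p hp
    rw [Finset.mem_product] at hp
    rw [Nat.mem_divisors]
    exact ⟨Nat.mul_dvd_mul (Nat.mem_divisors.mp hp.1).1 (Nat.mem_divisors.mp hp.2).1,
      by positivity⟩
  · intro d hd
    rw [Finset.mem_product, Nat.mem_divisors, Nat.mem_divisors]
    exact ⟨⟨Nat.gcd_dvd_right _ _, hm.ne'⟩, ⟨Nat.gcd_dvd_right _ _, hn.ne'⟩⟩
  · intro p hp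
    rw [Finset.mem_product] at hp
    have h1 := (Nat.mem_divisors.mp hp.1).1
    have h2 := (Nat.mem_divisors.mp hp.2).1
    have c1 : Nat.Coprime p.2 m := (Nat.Coprime.coprime_dvd_right h2 h).symm
    have c2 : Nat.Coprime p.1 n := Nat.Coprime.coprime_dvd_left h1 h
    refine Prod.ext ?_ ?_
    · simp only []
      rw [Nat.Coprime.gcd_mul_right_cancel _ c1]
      exact Nat.gcd_eq_left h1
    · simp only []
      rw [Nat.Coprime.gcd_mul_left_cancel _ c2]
      exact Nat.gcd_eq_left h2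
  · intro d hd
    have h1 := (Nat.mem_divisors.mp hd).1
    simp only []
    rw [← Nat.Coprime.gcd_mul d h]
    exact Nat.gcd_eq_left h1
  · intro p _
    rfl

/-- **the Hecke relation** -/
theorem ha_hecke {a b : ℕ} (ha : 0 < a) (hb : 0 < b) (x : ℕ → ℝ) :
    Um a x * Um b x = ∑ j ∈ (Nat.gcd a b).divisors, Um (a * b / j ^ 2) x := by
  induction a using Nat.recOnPosPrimePosCoprime generalizing b with
  | zero => omega
  | one => simp [HPO_um_one]
  | prime_pow p k hp hk => exact ha_pow hp k hb x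
  | coprime a₁ a₂ h1 h2 hc ih1 ih2 =>
    have p1 : 0 < a₁ := by omega
    have p2 : 0 < a₂ := by omega
    rw [HPO_um_mul hc, mul_assoc, ih2 p2 hb, Finset.mul_sum]
    have hg : Nat.gcd (a₁ * a₂) b = Nat.gcd a₁ b * Nat.gcd a₂ b := by
      rw [Nat.gcd_comm, Nat.Coprime.gcd_mul b hc, Nat.gcd_comm b, Nat.gcd_comm b]
    have hgc : (Nat.gcd a₁ b).Coprime (Nat.gcd a₂ b) :=
      Nat.Coprime.coprime_dvd_left (Nat.gcd_dvd_left _ _)
        (Nat.Coprime.coprime_dvd_right (Nat.gcd_dvd_left _ _) hc)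
    have e1 : ∀ j ∈ (Nat.gcd a₂ b).divisors, Um a₁ x * Um (a₂ * b / j ^ 2) x =
        ∑ i ∈ (Nat.gcd a₁ b).divisors, Um (a₁ * a₂ * b / (i * j) ^ 2) x := by
      intro j hj
      have hj1 := (Nat.mem_divisors.mp hj).1
      have hja : j ∣ a₂ := hj1.trans (Nat.gcd_dvd_left _ _)
      have hjb : j ∣ b := hj1.trans (Nat.gcd_dvd_right _ _)
      have hj0 : 0 < j := Nat.pos_of_mem_divisors hj
      obtain ⟨u, hu⟩ := hja
      obtain ⟨v, hv⟩ := hjb
      have hu0 : 0 < u := Nat.pos_of_ne_zero (by rintro rfl; simp at hu; omega)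
      have hv0 : 0 < v := Nat.pos_of_ne_zero (by rintro rfl; simp at hv; omega)
      have e2 : a₂ * b / j ^ 2 = u * v := by
        rw [hu, hv, show j * u * (j * v) = j ^ 2 * (u * v) by ring,
          Nat.mul_div_cancel_left _ (by positivity)]
      have hcj : a₁.Coprime j := Nat.Coprime.coprime_dvd_right ⟨u, hu⟩ hc
      have hcu : a₁.Coprime u := Nat.Coprime.coprime_dvd_right ⟨j, by rw [hu]; ring⟩ hc
      have e3 : Nat.gcd a₁ (u * v) = Nat.gcd a₁ b := by
        rw [hv, Nat.Coprime.gcd_mul_left_cancel_right _ hcu.symm,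
          Nat.Coprime.gcd_mul_left_cancel_right _ hcj.symm]
      rw [e2, ih1 p1 (by positivity), e3]
      refine Finset.sum_congr rfl fun i hi => ?_
      congr 1
      have hi0 : 0 < i := Nat.pos_of_mem_divisors hi
      rw [hu, hv, show a₁ * (j * u) * (j * v) = j ^ 2 * (a₁ * (u * v)) by ring,
        show (i * j) ^ 2 = j ^ 2 * i ^ 2 by ring, Nat.mul_div_mul_left _ _ (by positivity)]
    rw [Finset.sum_congr rfl e1, hg, Finset.sum_comm,
      ha_div (Nat.gcd_pos_of_pos_left _ p1) (Nat.gcd_pos_of_pos_left _ p2) hgc]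

end Pool.Agent.LK
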